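import Pool.Agent.H49.TRN.S1

/-! helper85. Board `trn`: modules STU and LOR. -/

set_option autoImplicit false

namespace Pool.TRN

open Finset

namespace St

/-- the number of points of a row -/
lemma card_row (p v l r : ℕ) (D : Finset (ℕ × ℕ))
    (h : ∀ b ∈ D, p * b.1 + b.2 = v → l ≤ b.1 ∧ b.1 < r) :
    (D.filter fun b => p * b.1 + b.2 = v).card ≤ r - l := by
  have h1 : (D.filter fun b => p * b.1 + b.2 = v).card ≤ (Finset.Ico l r).card := by
    refine Finset.card_le_card_of_injOn Prod.fst ?_ ?_
    · intro b hb
      rw [Finset.mem_coe, Finset.mem_filter] at hb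
      have := h b hb.1 hb.2
      simpa using this
    · intro a ha b hb hab
      rw [Finset.mem_coe, Finset.mem_filter] at ha hb
      have e : a.1 = b.1 := hab
      have h2 := ha.2
      rw [e] at h2
      have h3 := hb.2
      exact Prod.ext e (by omega)
  simpa using h1

/-- one piece: rows `p x + y = v`, at most `r v - l v` points, `f` injective -/
lemma piece (h1 : PELStmt) (m p : ℕ) (D : Finset (ℕ × ℕ)) (f l r : ℕ → ℕ)
    (hD : ∀ b ∈ D, l (p * b.1 + b.2) ≤ b.1 ∧ b.1 < r (p * b.1 + b.2))
    (hm : ∀ b ∈ D, r (p * b.1 + b.2) - l (p * b.1 + b.2) + f (p * b.1 + b.2) ≤ m)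
    (hf : ∀ a ∈ D, ∀ b ∈ D, f (p * a.1 + a.2) = f (p * b.1 + b.2) →
      p * a.1 + a.2 = p * b.1 + b.2) : Cov m 1 D := by
  refine h1 m p D f (fun a ha => ?_) hf
  have h2 := card_row p (p * a.1 + a.2) (l (p * a.1 + a.2)) (r (p * a.1 + a.2)) D
    (fun b hb hb2 => by rw [← hb2]; exact hD b hb)
  have h3 := hm a ha
  omega

end St

open St

theorem t_lor (h1 : PELStmt) (h2 : CUTStmt) (h3 : SBSStmt) : LORStmt := by
  intro d h D P hh hD
  have key : ∀ n p : ℕ, p + n = P →
      Cov (d + 1) (2 * n + 1) ((Lo d h D).filter fun a => aa d (d + 1 - h) p ≤ a.1) := by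
    intro n
    induction n with
    | zero =>
      intro p hp
      have hpP : p = P := by omega
      subst hpP
      set A := aa d (d + 1 - h) p with hA
      refine piece h1 (d + 1) 0 _ (fun v => v) (fun _ => A) (fun v => A + (d + 1 - v)) ?_ ?_ ?_
      · intro b hb
        rw [Finset.mem_filter, Lo, Finset.mem_filter] at hb
        obtain ⟨⟨_, _, h6⟩, h7⟩ := hb
        simp only [zero_mul, zero_add]
        omega
      · intro b hb
        rw [Finset.mem_filter, Lo, Finset.mem_filter] at hb
        obtain ⟨⟨_, _, h6⟩, h7⟩ := hb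
        simp only [zero_mul, zero_add]
        omega
      · intro a _ b _ hab
        exact hab
    | succ n ih =>
      intro p hp
      have ih' := ih (p + 1) (by omega)
      set A := aa d (d + 1 - h) p with hA
      set A' := aa d (d + 1 - h) (p + 1) with hA'
      have hAp : p * (d + 2) ≤ A := by
        rw [hA, aa]
        have : p * (d + 2) ≤ p * (d + 2 + (d + 1 - h)) := Nat.mul_le_mul_left _ (by omega)
        exact this.trans (Nat.le_add_right _ _)
      have hAA : A' = A + (d + 2 + (d + 1 - h) + p) := by
        rw [hA, hA', aa, aa]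
        have e1 : (p + 1) * (p + 1 - 1) / 2 = p * (p - 1) / 2 + p := by
          rw [Nat.add_sub_cancel]
          have e2 : (p + 1) * p = p * (p - 1) + p * 2 := by
            rcases p with _ | p
            · rfl
            · rw [Nat.add_sub_cancel]; ring
          rw [e2, Nat.add_mul_div_right _ _ (by norm_num)]
        rw [e1]
        ring
      -- the two pieces of the block
      have c1 : Cov (d + 1) 1 ((Lo d h D).filter fun a => A ≤ a.1 ∧ a.1 < A' ∧
          a.1 + a.2 ≤ A + d) := by
        refine piece h1 (d + 1) 0 _ (fun v => v) (fun _ => A) (fun v => A + (d + 1 - v)) ?_ ?_ ?_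
        · intro b hb
          rw [Finset.mem_filter] at hb
          obtain ⟨_, h5, h6, h7⟩ := hb
          simp only [zero_mul, zero_add]
          omega
        · intro b hb
          rw [Finset.mem_filter] at hb
          obtain ⟨_, h5, h6, h7⟩ := hb
          simp only [zero_mul, zero_add]
          omega
        · intro a _ b _ hab
          exact hab
      have hup : ∀ a ∈ (Lo d h D).filter (fun a => A ≤ a.1 ∧ a.1 < A' ∧ A + d < a.1 + a.2),
          (d + 1 - h) + p + a.2 ≤ d := by
        intro a ha
        rw [Finset.mem_filter, Lo, Finset.mem_filter] at ha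
        obtain ⟨⟨_, h4, _⟩, h5, h6, h7⟩ := ha
        by_contra hcon
        push Not at hcon
        -- `h + a.2 ≤ ...`
        have h8 : h ≤ p + a.2 := by omega
        have h9 : A + d + 1 + (d + 1) * a.2 ≤ a.1 + (d + 2) * a.2 := by nlinarith
        have h10 : (d + 2) * h ≤ (d + 2) * (p + a.2) := Nat.mul_le_mul_left _ h8
        nlinarith
      have c2 : Cov (d + 1) 1 ((Lo d h D).filter fun a => A ≤ a.1 ∧ a.1 < A' ∧
          A + d < a.1 + a.2) := by
        refine piece h1 (d + 1) 0 _ (fun v => d - ((d + 1 - h) + p + v))
          (fun v => A + d + 1 - v) (fun _ => A') ?_ ?_ ?_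
        · intro b hb
          rw [Finset.mem_filter] at hb
          obtain ⟨_, h5, h6, h7⟩ := hb
          simp only [zero_mul, zero_add]
          omega
        · intro b hb
          have h8 := hup b hb
          rw [Finset.mem_filter] at hb
          obtain ⟨_, h5, h6, h7⟩ := hb
          simp only [zero_mul, zero_add]
          omega
        · intro a ha b hb hab
          have h8 := hup a ha
          have h9 := hup b hb
          simp only [zero_mul, zero_add] at hab ⊢
          omega
      have c12 := h2 (d + 1) 1 1 1 1 _ _ (fun a ha b hb => by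
        rw [Finset.mem_filter] at ha hb
        have h5 := ha.2.2.2
        have h6 := hb.2.2.2
        omega) c1 c2
      have c3 := h2 (d + 1) (1 + 1) (2 * n + 1) 1 0 _ _ (fun a ha b hb => by
        rw [Finset.mem_union, Finset.mem_filter, Finset.mem_filter] at ha
        rw [Finset.mem_filter] at hb
        have h5 := hb.2
        rcases ha with ha | ha
        · have h6 := ha.2.2.1
          omega
        · have h6 := ha.2.2.1
          omega) c12 ih'
      have e : 1 + 1 + (2 * n + 1) = 2 * (n + 1) + 1 := by ring
      rw [e] at c3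
      refine h3 _ _ _ _ (fun a ha => ?_) c3
      rw [Finset.mem_filter] at ha
      rw [Finset.mem_union, Finset.mem_union, Finset.mem_filter, Finset.mem_filter,
        Finset.mem_filter]
      by_cases h5 : a.1 < A'
      · left
        by_cases h6 : a.1 + a.2 ≤ A + d
        · exact Or.inl ⟨ha.1, ha.2, h5, h6⟩
        · exact Or.inr ⟨ha.1, ha.2, h5, by omega⟩
      · exact Or.inr ⟨ha.1, by omega⟩
  refine h3 _ _ _ _ (fun a ha => ?_) (key P 0 (by omega))
  rw [Finset.mem_filter]
  exact ⟨ha, by simp [aa]⟩

theorem t_stu (h1 : PELStmt) (h2 : CUTStmt) (h3 : SBSStmt) : STUStmt := by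
  intro d h j
  set B := h + j * (d + 1) with hB
  have hB2 : h + (j + 1) * (d + 1) = B + d + 1 := by rw [hB]; ring
  have hStr : ∀ a ∈ Str d h j, (d + 2) * h ≤ a.1 + (d + 2) * a.2 ∧ B ≤ a.1 + a.2 ∧
      a.1 + a.2 < B + d + 1 := by
    intro a ha
    rw [Str, Finset.mem_filter] at ha
    obtain ⟨_, h4, h5, h6⟩ := ha
    exact ⟨h4, h5, by omega⟩
  have key : ∀ n q : ℕ, q + n = j →
      Cov (d + 1) (2 * n + 1) ((Str d h j).filter fun a => (d + 2) * q ≤ a.1) := by
    intro n
    induction n with
    | zero =>
      intro q hq
      have hqj : q = j := by omega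
      subst hqj
      refine piece h1 (d + 1) 1 _ (fun v => d - (v - B)) (fun _ => (d + 2) * q)
        (fun v => (d + 2) * q + (v - B) + 1) ?_ ?_ ?_
      · intro b hb
        rw [Finset.mem_filter] at hb
        obtain ⟨h4, h5, h6⟩ := hStr b hb.1
        have h7 := hb.2
        simp only [one_mul]
        refine ⟨h7, ?_⟩
        by_contra hcon
        push Not at hcon
        -- the point violates the first condition
        have h8 : b.2 + q + 1 ≤ h := by
          have : (d + 2) * q = q * (d + 1) + q := by ring
          omega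
        obtain ⟨t, ht⟩ : ∃ t, b.2 + q + 1 + t = h := ⟨h - (b.2 + q + 1), by omega⟩
        have h9 : b.1 = (d + 2) * q + (b.1 + b.2 - B) + 1 + t := by
          have : (d + 2) * q = q * (d + 1) + q := by ring
          omega
        have h10 : (d + 2) * h = (d + 2) * b.2 + (d + 2) * q + (d + 2) + (d + 2) * t := by
          rw [← ht]; ring
        have h11 : t ≤ (d + 2) * t := Nat.le_mul_of_pos_left _ (by omega)
        omega
      · intro b hb
        rw [Finset.mem_filter] at hb
        obtain ⟨h4, h5, h6⟩ := hStr b hb.1
        simp only [one_mul]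
        omega
      · intro a ha b hb hab
        rw [Finset.mem_filter] at ha hb
        obtain ⟨_, h5, h6⟩ := hStr a ha.1
        obtain ⟨_, h5', h6'⟩ := hStr b hb.1
        simp only [one_mul] at hab ⊢
        omega
    | succ n ih =>
      intro q hq
      have ih' := ih (q + 1) (by omega)
      have hq2 : (d + 2) * (q + 1) = (d + 2) * q + d + 2 := by ring
      set Q := (d + 2) * q with hQ
      rw [hq2] at ih'
      have c1 : Cov (d + 1) 1 ((Str d h j).filter fun a => Q ≤ a.1 ∧ a.1 < Q + d + 2 ∧
          a.2 + Q < B) := by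
        refine piece h1 (d + 1) 1 _ (fun v => v - B) (fun v => Q + (v - B) + 1)
          (fun _ => Q + d + 2) ?_ ?_ ?_
        · intro b hb
          rw [Finset.mem_filter] at hb
          obtain ⟨h4, h5, h6⟩ := hStr b hb.1
          obtain ⟨_, h7, h8, h9⟩ := hb
          simp only [one_mul]
          omega
        · intro b hb
          rw [Finset.mem_filter] at hb
          obtain ⟨h4, h5, h6⟩ := hStr b hb.1
          simp only [one_mul]
          omega
        · intro a ha b hb hab
          rw [Finset.mem_filter] at ha hb
          obtain ⟨_, h5, h6⟩ := hStr a ha.1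
          obtain ⟨_, h5', h6'⟩ := hStr b hb.1
          simp only [one_mul] at hab ⊢
          omega
      have c2 : Cov (d + 1) 1 ((Str d h j).filter fun a => Q ≤ a.1 ∧ a.1 < Q + d + 2 ∧
          B ≤ a.2 + Q) := by
        refine piece h1 (d + 1) 1 _ (fun v => d - (v - B)) (fun _ => Q)
          (fun v => Q + (v - B) + 1) ?_ ?_ ?_
        · intro b hb
          rw [Finset.mem_filter] at hb
          obtain ⟨h4, h5, h6⟩ := hStr b hb.1
          obtain ⟨_, h7, h8, h9⟩ := hb
          simp only [one_mul]
          omega
        · intro b hb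
          rw [Finset.mem_filter] at hb
          obtain ⟨h4, h5, h6⟩ := hStr b hb.1
          simp only [one_mul]
          omega
        · intro a ha b hb hab
          rw [Finset.mem_filter] at ha hb
          obtain ⟨_, h5, h6⟩ := hStr a ha.1
          obtain ⟨_, h5', h6'⟩ := hStr b hb.1
          simp only [one_mul] at hab ⊢
          omega
      have c12 := h2 (d + 1) 1 1 0 1 _ _ (fun a ha b hb => by
        rw [Finset.mem_filter] at ha hb
        have h5 := ha.2.2.2
        have h6 := hb.2.2.2
        omega) c1 c2
      have c3 := h2 (d + 1) (1 + 1) (2 * n + 1) 1 0 _ _ (fun a ha b hb => by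
        rw [Finset.mem_union, Finset.mem_filter, Finset.mem_filter] at ha
        rw [Finset.mem_filter] at hb
        have h5 := hb.2
        rcases ha with ha | ha
        · have h6 := ha.2.2.1
          omega
        · have h6 := ha.2.2.1
          omega) c12 ih'
      have e : 1 + 1 + (2 * n + 1) = 2 * (n + 1) + 1 := by ring
      rw [e] at c3
      refine h3 _ _ _ _ (fun a ha => ?_) c3
      rw [Finset.mem_filter] at ha
      rw [Finset.mem_union, Finset.mem_union, Finset.mem_filter, Finset.mem_filter,
        Finset.mem_filter]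
      by_cases h5 : a.1 < Q + d + 2
      · left
        by_cases h6 : a.2 + Q < B
        · exact Or.inl ⟨ha.1, ha.2, h5, h6⟩
        · exact Or.inr ⟨ha.1, ha.2, h5, by omega⟩
      · exact Or.inr ⟨ha.1, by omega⟩
  refine h3 _ _ _ _ (fun a ha => ?_) (key j 0 (by omega))
  rw [Finset.mem_filter]
  exact ⟨ha, by simp⟩

end Pool.TRN
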